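import Pool.Agent.H629.TA.Stm

set_option autoImplicit false

/-! MP_751612_pr, board task TA-TW: total degree, total weight and minimal degree. -/

open Finset

namespace Pool.Agent.H157.TA.TW

open Pool.Agent.H629.TA

lemma mult_symm (m : ℕ) (h : Hist m) (a b : ℕ) : mult m h a b = mult m h b a := by
  by_cases hab : a = b
  · rw [hab]
  · have hba : ¬ b = a := fun hh => hab hh.symm
    unfold mult
    rw [if_neg hab, if_neg hba, max_comm a b, min_comm a b]

lemma mult_self (m : ℕ) (h : Hist m) (a : ℕ) : mult m h a a = 0 := by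
  unfold mult
  rw [if_pos rfl]

/-- the edges from the vertex `c ≥ 3` to older vertices -/
lemma sum_old (m : ℕ) (h : Hist m) (c : ℕ) (hc : 3 ≤ c) (hv : ∀ l, h c l ∈ Icc 1 (c - 1)) :
    ∑ a ∈ Icc 1 (c - 1), mult m h a c = m := by
  have h1 : ∀ a ∈ Icc 1 (c - 1), mult m h a c = (univ.filter fun l : Fin m => h c l = a).card := by
    intro a ha
    rw [mem_Icc] at ha
    unfold mult
    rw [if_neg (by omega), max_eq_right (by omega : a ≤ c), min_eq_left (by omega : a ≤ c),
      if_neg (by omega)]
  rw [sum_congr rfl h1]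
  have h2 := Finset.card_eq_sum_card_fiberwise (f := fun l : Fin m => h c l)
    (s := (univ : Finset (Fin m))) (t := Icc 1 (c - 1)) (fun l _ => by
      have := hv l
      simpa using this)
  rw [← h2]
  simp

lemma sum_deg (m k : ℕ) (h : Hist m) (hk : 2 ≤ k) (hv : Valid m h k) :
    ∑ a ∈ Icc 1 k, deg m h k a = 2 * m * (k - 1) := by
  induction k, hk using Nat.le_induction with
  | base =>
    have e : Icc 1 2 = ({1, 2} : Finset ℕ) := by decide
    unfold deg
    rw [e, sum_pair (by norm_num), sum_pair (by norm_num), sum_pair (by norm_num), mult_self,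
      mult_self, mult_symm m h 2 1]
    have : mult m h 1 2 = m := by
      unfold mult
      rw [if_neg (by norm_num), if_pos (by norm_num)]
    rw [this]
    omega
  | succ k hk ih =>
    have hv' : Valid m h k := fun i hi hik l => hv i hi (by omega) l
    have ih' := ih hv'
    have e1 : Icc 1 (k + 1) = insert (k + 1) (Icc 1 k) := by
      ext x
      simp only [mem_Icc, mem_insert]
      omega
    have hn : (k + 1) ∉ Icc 1 k := by
      simp
    have hold : ∑ a ∈ Icc 1 k, mult m h a (k + 1) = m := by
      have := sum_old m h (k + 1) (by omega) (fun l => hv (k + 1) (by omega) le_rfl l)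
      simpa using this
    have hdeg : ∀ a, deg m h (k + 1) a = mult m h a (k + 1) + deg m h k a := by
      intro a
      unfold deg
      rw [e1, sum_insert hn]
    rw [e1, sum_insert hn, hdeg, mult_self]
    have h3 : deg m h k (k + 1) = m := by
      unfold deg
      refine Eq.trans ?_ hold
      exact sum_congr rfl fun b _ => mult_symm m h _ _
    rw [h3, sum_congr rfl (fun a _ => hdeg a), sum_add_distrib, hold, ih']
    obtain ⟨j, rfl⟩ : ∃ j, k = j + 1 := ⟨k - 1, by omega⟩
    simp only [Nat.add_sub_cancel]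
    ring

lemma min_deg (m k : ℕ) (h : Hist m) (hk : 2 ≤ k) (hv : Valid m h k) :
    ∀ a ∈ Icc 1 k, m ≤ deg m h k a := by
  intro a ha
  rw [mem_Icc] at ha
  unfold deg
  rcases Nat.lt_or_ge a 3 with h3 | h3
  · have ha' : a = 1 ∨ a = 2 := by omega
    rcases ha' with rfl | rfl
    · have h1 : mult m h 1 2 = m := by
        unfold mult
        rw [if_neg (by norm_num), if_pos (by norm_num)]
      calc m = mult m h 1 2 := h1.symm
        _ ≤ _ := single_le_sum (f := fun b => mult m h 1 b) (fun _ _ => Nat.zero_le _)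
          (by rw [mem_Icc]; omega)
    · have h1 : mult m h 2 1 = m := by
        unfold mult
        rw [if_neg (by norm_num), if_pos (by norm_num)]
      calc m = mult m h 2 1 := h1.symm
        _ ≤ _ := single_le_sum (f := fun b => mult m h 2 b) (fun _ _ => Nat.zero_le _)
          (by rw [mem_Icc]; omega)
  · have h1 := sum_old m h a h3 (fun l => hv a h3 ha.2 l)
    calc m = ∑ b ∈ Icc 1 (a - 1), mult m h b a := h1.symm
      _ = ∑ b ∈ Icc 1 (a - 1), mult m h a b := sum_congr rfl fun b _ => mult_symm m h _ _
      _ ≤ _ := sum_le_sum_of_subset (by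
          intro x hx
          rw [mem_Icc] at hx ⊢
          omega)

theorem t_TW : S_TW := by
  intro m k h hk hv
  have h1 : ∑ a ∈ Icc 1 k, (deg m h k a : ℝ) = 2 * m * ((k : ℝ) - 1) := by
    have := sum_deg m k h hk hv
    have h2 : ((∑ a ∈ Icc 1 k, deg m h k a : ℕ) : ℝ) = ((2 * m * (k - 1) : ℕ) : ℝ) := by
      rw [this]
    rw [Nat.cast_sum] at h2
    rw [h2, Nat.cast_mul, Nat.cast_mul, Nat.cast_sub (by omega)]
    push_cast
    ring
  refine ⟨h1, ?_, min_deg m k h hk hv⟩
  intro δ
  unfold wt tot
  rw [sum_add_distrib, h1, sum_const, Nat.card_Icc]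
  simp

end Pool.Agent.H157.TA.TW
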